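import Mathlib
import Pool.Agent.Q3.VariantAct

/-! A variant of rank 2 of the full transformation semigroup whose minimum degree is smaller than
`2 n - 2`. -/

set_option autoImplicit false

namespace Pool.Agent.Results.MP_e4b752_al.SmallDegree

/-- The sandwich product `x a y` of the variant `T_n^a`. Maps are composed from left to right:
first `x`, then `a`, then `y`. -/
def sandwich {n : ℕ} (a x y : Fin n → Fin n) : Fin n → Fin n := fun i => y (a (x i))

/-- The product `f g` of the full transformation semigroup `T_m`, composed from left to right: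
first `f`, then `g`. -/
def prod {m : ℕ} (f g : Fin m → Fin m) : Fin m → Fin m := fun i => g (f i)

/-- The variant `T_n^a` embeds in `T_m`. -/
def Embeds {n : ℕ} (a : Fin n → Fin n) (m : ℕ) : Prop :=
  ∃ φ : (Fin n → Fin n) → (Fin m → Fin m), Function.Injective φ ∧
    ∀ x y, φ (sandwich a x y) = prod (φ x) (φ y)

/-- The minimum degree `μ(T_n^a)`. -/
noncomputable def mu {n : ℕ} (a : Fin n → Fin n) : ℕ := sInf {m | 1 ≤ m ∧ Embeds a m}

/-- The rank of a transformation. -/
noncomputable def rank {n : ℕ} (a : Fin n → Fin n) : ℕ := (Set.range a).ncard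

section construction

open Q3.VariantAct

lemma exists_enc : Nonempty ((Fin 2046 → Fin 2048) ↪ (Fin 2814 → Fin 256)) := by
  apply Function.Embedding.nonempty_of_card_le
  rw [Fintype.card_fun, Fintype.card_fun, Fintype.card_fin, Fintype.card_fin, Fintype.card_fin,
    Fintype.card_fin]
  have h1 : (2048 : ℕ) = 2 ^ 11 := by norm_num
  have h2 : (256 : ℕ) = 2 ^ 8 := by norm_num
  rw [h1, h2, ← pow_mul, ← pow_mul]
  exact Nat.pow_le_pow_right (by norm_num) (by norm_num)

/-- the concrete data -/
noncomputable def D : Dat where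
  X := Fin 2048
  p0 := 0
  p1 := 1
  cl i := decide (i = 1)
  cl0 := by decide
  cl1 := by decide
  H := Fin 64
  h c i := if c then ⟨(i : ℕ) / 64, by have := i.2; omega⟩ else ⟨(i : ℕ) % 64, by omega⟩
  h_inj u v huv := by
    have h1 := huv true
    have h2 := huv false
    simp only [if_true, Bool.false_eq_true, if_false, Fin.mk.injEq] at h1 h2
    apply Fin.ext
    omega
  K := Fin 7
  J := Fin 293
  pt j l := if h : 2 + 7 * (j : ℕ) + l < 2048 then ⟨2 + 7 * (j : ℕ) + l, h⟩ else 0
  pt_cov i hi0 hi1 := by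
    have h0 : (i : ℕ) ≠ 0 := fun h => hi0 (Fin.ext h)
    have h1 : (i : ℕ) ≠ 1 := fun h => hi1 (Fin.ext h)
    have h2 := i.2
    refine ⟨⟨((i : ℕ) - 2) / 7, by omega⟩, ⟨((i : ℕ) - 2) % 7, by omega⟩, ?_⟩
    have h3 : 2 + 7 * (((i : ℕ) - 2) / 7) + ((i : ℕ) - 2) % 7 = i := by omega
    rw [dif_pos (by simp only; omega)]
    apply Fin.ext
    exact h3
  T := Fin 2814
  F := Fin 256
  t0 := 0
  enc x := exists_enc.some (fun i : Fin 2046 => x ⟨(i : ℕ) + 2, by have := i.2; omega⟩)
  enc_inj x y h i hi0 hi1 := by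
    have h0 : (i : ℕ) ≠ 0 := fun h => hi0 (Fin.ext h)
    have h1 : (i : ℕ) ≠ 1 := fun h => hi1 (Fin.ext h)
    have h2 := i.2
    have h3 := congrFun (exists_enc.some.injective h) ⟨(i : ℕ) - 2, by omega⟩
    have h4 : (⟨(i : ℕ) - 2 + 2, by omega⟩ : Fin 2048) = i := Fin.ext (by simp only; omega)
    simp only at h3
    rwa [h4] at h3

/-- the sandwich element -/
def a0 : Fin 2048 → Fin 2048 := fun i => if i = 1 then 1 else 0

lemma rank_a0 : rank a0 = 2 := by
  have : Set.range a0 = {0, 1} := by
    ext i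
    constructor
    · rintro ⟨j, rfl⟩
      unfold a0
      split_ifs <;> simp
    · rintro (rfl | rfl)
      · exact ⟨0, by decide⟩
      · exact ⟨1, by decide⟩
  rw [rank, this, Set.ncard_pair (by decide)]

lemma a0_eq (i : Fin 2048) : a0 i = al D (D.cl i) := by
  unfold a0 al
  by_cases h : i = 1
  · subst h
    have : D.cl (1 : Fin 2048) = true := by rfl
    rw [if_pos rfl, if_pos this]
    rfl
  · have : D.cl i ≠ true := by
      intro h'
      exact h (of_decide_eq_true h')
    rw [if_neg h, if_neg this]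
    rfl

lemma card_om : Nonempty (Om D ≃ Fin 3878) := by
  let e1 := omEquiv D
  have e2 : Nonempty (((Bool × Bool × Fin 64) ⊕ Bool ⊕ Unit ⊕ (Fin 7 → Bool) ⊕ (Fin 7 → Bool) ⊕
      Fin 293 ⊕ Fin 2814 ⊕ Fin 256) ≃ Fin 3878) := by
    apply Fintype.card_eq.mp
    simp only [Fintype.card_sum, Fintype.card_prod, Fintype.card_bool, Fintype.card_fin,
      Fintype.card_unit, Fintype.card_fun]
    norm_num
  exact ⟨e1.trans e2.some⟩

lemma embeds : Embeds a0 3878 := by
  obtain ⟨e⟩ := card_om
  refine ⟨fun x p => e (act D x (e.symm p)), ?_, ?_⟩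
  · intro x y hxy
    apply act_inj D x y
    intro p
    have := congrFun hxy (e p)
    simpa using this
  · intro x y
    funext p
    unfold prod
    simp only [Equiv.symm_apply_apply]
    have e3 : sandwich a0 x y = (Q3.VariantAct.star D x y : Fin 2048 → Fin 2048) := by
      funext i
      unfold sandwich
      rw [a0_eq]
      rfl
    exact congrArg e ((congrArg (fun w => act D w (e.symm p)) e3).trans (act_star D x y _))

end construction

/-- There is a transformation `a` of a set with `n = 2048` elements, of rank `2`, for which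
`μ(T_n^a) ≤ 3878 < 4094 = 2 n - 2`. -/
theorem result : ∃ a : Fin 2048 → Fin 2048, rank a = 2 ∧ mu a ≤ 3878 ∧
    mu a ≠ 2 * 2048 - rank a := by
  have h : mu a0 ≤ 3878 := Nat.sInf_le ⟨by norm_num, embeds⟩
  refine ⟨a0, rank_a0, h, ?_⟩
  rw [rank_a0]
  omega

end Pool.Agent.Results.MP_e4b752_al.SmallDegree
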